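import Pool.Agent.Helper449_QS.Surf
import Pool.Agent.Y735.Irred

/-!
MP_4dacf8_ag, Q1, `D = 0`: Vojta's height inequality for ALL algebraic points (of unbounded degree
over the base) of generic surfaces of degree at least `5` in projective space of dimension `3`, with
empty exceptional set.

Let `k` be an algebraically closed field of characteristic zero, and `K` a function field of one
variable over `k`. Let `X` be the surface `H = 0` in projective space of dimension `3`, for a form
`H` over `K` of degree `d ≥ 5` whose coefficients are algebraically independent over a subfield `K0`
of `K` that is finitely generated over a subfield `k0` of `k`. (For `k` uncountable and `k0`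
countable, this holds for the very general surfaces over `k`, and for very general families of
surfaces, which are not isotrivial.) The canonical class of `X` is `d - 4` times a hyperplane
section, so `d ≥ 5` says that `X` is of general type. Then:

* `X` is geometrically irreducible;
* there are constants `A` and `B` such that, for all finite extensions `L` of `K` and all points `x`
  of `X` over `L`, `(d - 4) h(x) ≤ A (2 g(L) - 2) + B [L : K]`.

Here `pht k x = h(x)` is the height of `x` with respect to `O(1)` relative to `L` (minus the sum over
all places of `L` of the minimum of the orders of the coordinates; it is `[L : K]` times the height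
relative to `K`), and `canDeg k L` is `2 g(L) - 2`, the canonical degree of `L`. Divided by `[L : K]`,
this is the inequality of the problem for `D = 0`, outside the empty set.

The case of interest is that of quintic surfaces, where the canonical class is a hyperplane section:
for `d ≥ 6`, the inequality is part of the hand-in `GenericLogPairs`, and for `d = 5` only the points
over a fixed extension `L` were covered before (`GenericSurfacesRational`, with a constant that
depends on `L`).

The proof for `d = 5`: suppose that the inequality fails for all `A` and `B`. One gets a sequence of
points `x m` over finite extensions `L m` of `K`, with `h(x m) > m T m`, where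
`T m = 2 g(L m) - 2 + c [L m : K]` is positive. The `L m` are embedded in an algebraic closure of
`K`, to which the derivations with respect to the coefficients of `H` extend. In the ultrapower of
the algebraic closure, the elements which are given by sequences of elements of the `L m` of height
at most a multiple of `T m` form a subfield, and an element given by the `L m` which is algebraic
over this subfield lies in it. Over an algebraic closure of this subfield, the ratios of certain
determinants in the derivatives of the limit point are constants, and linear algebra shows that the
limit point lies on a line or a conic defined over it; as the surface does not contain such a curve,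
the coordinates of the limit point lie in the subfield, a contradiction.
-/

set_option autoImplicit false

namespace Pool.Agent.Results.MP_4dacf8_ag.GenericSurfaces

open FF MvPolynomial Pool.Agent.W603.LV Pool.Agent.W603.PV

theorem result {k0 k K0 K : Type} [Field k0] [Field k] [Field K0] [Field K] [IsAlgClosed k]
    [CharZero k] [Algebra k0 k] [Algebra k K] [Algebra k0 K] [IsScalarTower k0 k K]
    [Algebra k0 K0] [Algebra K0 K] [IsScalarTower k0 K0 K] [IsFF k K]
    (hfg : ∃ S : Finset K0, IntermediateField.adjoin k0 (S : Set K0) = ⊤) {d : ℕ} (hd : 5 ≤ d)
    -- a form of degree `d` with independent coefficients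
    {H : MvPolynomial (Fin (3 + 1)) K} (hH : H.IsHomogeneous d)
    (hgen : AlgebraicIndependent K0 fun I : {I : Fin (3 + 1) →₀ ℕ // I.degree = d} =>
      H.coeff I.1) :
    -- the surface is geometrically irreducible
    Irreducible (map (algebraMap K (AlgebraicClosure K)) H) ∧
    -- the height inequality for all algebraic points
    ∃ A B : ℕ, ∀ (L : Type) [Field L] [Algebra k L] [Algebra K L] [IsScalarTower k K L]
      [FiniteDimensional K L] (x : Fin (3 + 1) → L), x ≠ 0 → aeval x H = 0 →
        (d - 4) * pht k x ≤ A * canDeg k L + B * Module.finrank K L := by
  classical
  have hK : CharZero K := charZero_of_injective_algebraMap (algebraMap k K).injective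
  have hKc : CharZero (AlgebraicClosure K) :=
    charZero_of_injective_algebraMap (algebraMap K (AlgebraicClosure K)).injective
  constructor
  · obtain ⟨G, hG⟩ : ∃ G, G = map (algebraMap K (AlgebraicClosure K)) H := ⟨_, rfl⟩
    have hGh : G.IsHomogeneous d := hG ▸ hH.map _
    have hGgen : AlgebraicIndependent K0 fun I : {I : Fin (3 + 1) →₀ ℕ // I.degree = d} =>
        G.coeff I.1 := by
      have h3 := hgen.map' (f := IsScalarTower.toAlgHom K0 K (AlgebraicClosure K))
        (algebraMap K (AlgebraicClosure K)).injective
      have h4 : (fun I : {I : Fin (3 + 1) →₀ ℕ // I.degree = d} => G.coeff I.1) =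
          (IsScalarTower.toAlgHom K0 K (AlgebraicClosure K)) ∘ fun I => H.coeff I.1 := by
        funext I
        rw [hG, coeff_map]
        rfl
      rw [h4]
      exact h3
    rw [← hG]
    have hdeg : (Finsupp.single (Fin.last 3) d).degree = d := Finsupp.degree_single _ _
    exact Pool.Agent.Y735.irreducible_gen (by norm_num) (by omega) hGh ⟨_, hdeg⟩
      (hGgen.ne_zero ⟨_, hdeg⟩) (Pool.Agent.Y735.V.ratio_indep hGgen ⟨_, hdeg⟩)
  · obtain ⟨A, B, hAB⟩ : ∃ A B : ℕ, ∀ (L : Type) [Field L] [Algebra k L] [Algebra K L]
        [IsScalarTower k K L] [FiniteDimensional K L] (x : Fin (3 + 1) → L), x ≠ 0 →
        aeval x H = 0 → pht k x ≤ A * canDeg k L + B * Module.finrank K L :=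
      Pool.Agent.Helper449_QS.vojta_surf (k0 := k0) (k := k) hfg hd hH hgen
    refine ⟨(d - 4) * A, (d - 4) * B, fun L _ _ _ _ _ x hx hxH => ?_⟩
    have h1 : (0 : ℤ) ≤ (d : ℤ) - 4 := by omega
    have h2 := mul_le_mul_of_nonneg_left (hAB L x hx hxH) h1
    push_cast [Nat.cast_sub (show 4 ≤ d by omega)]
    linarith

end Pool.Agent.Results.MP_4dacf8_ag.GenericSurfaces
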