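import Pool.Agent.H583_GQ.VF
import Pool.Agent.H583_GQ.Top

/-!
MP_4dacf8_ag, Q1: Vojta's height inequality over function fields, for projective pairs with rational
functions which take given constant values with high multiplicities outside the boundary.

`GoodPt`, `MultIn`, `ValueBound`, `Functions` (`Pool/Agent/H583_GQ/VF.lean`): `X` is the projective
variety over the function field `F` with the homogeneous ideal `p`, `Q = 0` a divisor on it, and
`A i / B i`, `i < N`, are rational functions on `X`; `MultIn`: the vectors of the multiplicities of
the constant values `a i j`, `j < q i`, of these functions at the points of `X` over finite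
extensions of `F`, at the places where the point does not meet the divisor, outside a finite set of
places of `F`, are in the set `T`; `ValueBound`: the height inequality for the values of the
functions; `Functions`: `X` is integral, and the functions define a generically finite map to
`(ℙ¹)ᴺ`. `Vojta` (`Pool/Agent/W601/VF/Cov4.lean`): Vojta's inequality. `Good`
(`Pool/Agent/H583_GQ/Defs.lean`): the numerical condition for `T`.
-/

set_option autoImplicit false

namespace Pool.Agent.Results.MP_4dacf8_ag.ProductLinePairs

open FF MvPolynomial Pool.Agent.W601.VF Pool.Agent.H583_GQ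

universe u v w

/-- Let `T` be a set of vectors of multiplicities which satisfies `Good`, for instance because all
`q i ≥ 3` and all nonzero vectors in `T` have a sum larger than `∑ q i / (q i - 2)`. There is a
constant `R`, which depends only on `q` and `T`, with the following property. Let `F` be a function
field of one variable over the algebraically closed field `k` of characteristic zero, let `X` be a
projective variety over `F`, `D` the divisor `Q = 0` on `X`, and let `x i = A i / B i` be rational
functions on `X` such that the multiplicities of the values `a i j` of the `x i` outside `D` are in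
`T`. Then the heights of the values of the functions at the points `P` of `X` over finite extensions
`L` of `F` are bounded by
`∑ h (x i (P)) ≤ R * (2 g(L) - 2 + N(P)) + C * [L : F]`, where `N(P)` is the number of places of `L`
at which `P` meets `D`. If moreover `X` is integral, not contained in `D`, and the functions define a
generically finite map from `X` to `(ℙ¹)ᴺ`, then Vojta's inequality holds for `(X, D)`. -/
theorem result (N : ℕ) (q : Fin N → ℕ) (T : Set (∀ i, Fin (q i) → ℕ))
    (hT : Pool.Agent.H583_GQ.Good q T ∨ ((∀ i, 3 ≤ q i) ∧ ∀ m ∈ T, m ≠ 0 →
      ∑ i, (q i : ℝ) / ((q i : ℝ) - 2) < ((∑ i, ∑ j, m i j : ℕ) : ℝ))) :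
    ∃ R : ℕ, ∀ {k : Type u} [Field k] [IsAlgClosed k] [CharZero k] {F : Type v} [Field F]
      [Algebra k F] [IsFF k F] (a : ∀ i, Fin (q i) → k), (∀ i, Function.Injective (a i)) →
      ∀ (M : ℕ) (p : Ideal (MvPolynomial (Fin (M + 1)) F)) (Q : MvPolynomial (Fin (M + 1)) F)
        (e : ℕ) (A B : Fin N → MvPolynomial (Fin (M + 1)) F) (S : Finset (Place k F)),
        MultIn.{u, v, w} p Q e A B a T S →
        ValueBound.{u, v, w} p Q e A B a R ∧
        ∀ [p.IsPrime], Functions p Q e A B a → Vojta.{u, v, w} k p Q e := by
  have hG : Pool.Agent.H583_GQ.Good q T :=
    hT.elim id fun h => (strong_of_sum h.1 h.2).good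
  obtain ⟨α, β, hαβ⟩ := hG.nat
  refine ⟨∑ i, α i, fun {k} _ _ _ {F} _ _ _ a ha M p Q e A B S hM => ?_⟩
  have hV := value_bound ha hM hαβ
  exact ⟨hV, fun hF => vojta hV hF⟩

end Pool.Agent.Results.MP_4dacf8_ag.ProductLinePairs
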